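import Pool.Agent.Q64.VP.All

/-!
# MP_8eef66_an, Q1 (Veron): YES

Let `Ω ⊂ ℝ^N`, `N ≥ 2`, be a bounded open set (its boundary may be arbitrary) and let `g` be continuous
and nondecreasing. For every nonnegative good measure `μ` and every `δ > 0` there is a measure `ν`
with `0 ≤ ν ≤ μ` and `‖μ - ν‖ ≤ δ` whose potential `w` satisfies `g(w) ∈ L¹(Ω)`. So `V₊` is strongly
dense in the set of the nonnegative good measures.

Idea: `ν` is `μ` restricted to a compact set `A_d` on which the potential of `μ` is bounded, plus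
`(1 - e)` times the restriction of `μ` to a compact set `A` of points with infinite potential at which
the density of `g(u)` with respect to `μ` is uniformly small (Besicovitch, Egorov). Near `A` the
potential of `ν` at `y` is compared with `u` on one half of the ball `B(y, η dist(y, A))`.
-/

open MeasureTheory Filter Topology Set Metric
open scoped ENNReal NNReal ContDiff Laplacian

namespace Pool.Agent.Results.MP_8eef66_an.NonnegativeStrongDensity

abbrev E (N : ℕ) := EuclideanSpace ℝ (Fin N)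

/-- `ζ ∈ C_0^∞(closure Ω)`: smooth functions on `ℝ^N` which vanish on the boundary of `Ω` (only their
values on `Ω` are used) -/
def IsTest {N : ℕ} (Ω : Set (E N)) (ζ : E N → ℝ) : Prop :=
  ContDiff ℝ ∞ ζ ∧ ∀ x ∈ frontier Ω, ζ x = 0

/-- `μ` is a good measure: the nonlinear problem `-Δu + g(u) = μ`, `u = 0` on the boundary, has a
solution `u` -/
def Good {N : ℕ} (Ω : Set (E N)) (g : ℝ → ℝ) (μ : Measure (E N)) : Prop :=
  ∃ u : E N → ℝ, IntegrableOn u Ω ∧ IntegrableOn (fun x => g (u x)) Ω ∧ ∀ ζ : E N → ℝ,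
    IsTest Ω ζ →
    -(∫ x in Ω, u x * (Δ ζ) x) + ∫ x in Ω, g (u x) * ζ x = ∫ x, ζ x ∂μ

/-- `g(w) ∈ L¹(Ω)` for the potential `w` of `μ` (the solution of `-Δw = μ`, `w = 0` on the
boundary) -/
def InV {N : ℕ} (Ω : Set (E N)) (g : ℝ → ℝ) (μ : Measure (E N)) : Prop :=
  ∃ w : E N → ℝ, IntegrableOn w Ω ∧ IntegrableOn (fun x => g (w x)) Ω ∧ ∀ ζ : E N → ℝ,
    IsTest Ω ζ → -(∫ x in Ω, w x * (Δ ζ) x) = ∫ x, ζ x ∂μ

/-- Q1: for every `N ≥ 2`, every bounded open `Ω`, every continuous nondecreasing `g` and every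
finite nonnegative good measure `μ` on `Ω` there are, for every `δ > 0`, measures `ν, σ ≥ 0` with
`μ = ν + σ`, `‖μ - ν‖ = σ(ℝ^N) ≤ δ` and `ν ∈ V₊`. -/
theorem result : ∀ (N : ℕ), 2 ≤ N → ∀ (Ω : Set (E N)) (g : ℝ → ℝ), IsOpen Ω →
    Bornology.IsBounded Ω → Continuous g → Monotone g →
    ∀ μ : Measure (E N), IsFiniteMeasure μ → μ Ωᶜ = 0 → Good Ω g μ →
    ∀ δ : ℝ, 0 < δ → ∃ ν σ : Measure (E N), μ = ν + σ ∧ σ univ ≤ ENNReal.ofReal δ ∧ InV Ω g ν := by
  intro N hN Ω g hΩ hb hg hm μ hμ h0 hgood δ hδ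
  exact Pool.Agent.Q64.VP.all_MAIN N hN Ω g μ hΩ hb hg hm hμ h0 hgood δ hδ

end Pool.Agent.Results.MP_8eef66_an.NonnegativeStrongDensity
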